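import Pool.Agent.Y605.OD.Hard
import Pool.Agent.Y605.OD.Low

/-!
# Orthogonal representations in `ℝ^d`: polynomial time for `d ≤ 2`, `∃ℝ`-complete for `d ≥ 3`

`IsGraph`, `graphOf` and `ORTH3` are defined in `H670R2/OrthDefs`, `IsOrthRepIn` in `Y605/OD/Geo`.
The hardness for `ℝ^3` is that of the library; a universal vertex raises the dimension by exactly
one.  In the plane the graphs with an orthogonal representation are those of maximum degree one.
-/

namespace Pool.Agent.Results.MP_e14cd3_lc.EveryDimension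

open Pool.Agent.NPC Pool.Agent.NPC.ER Pool.Agent.H670R2 Pool.Agent.NPC.Y605OD
  Pool.Agent.Y605.OD

/-- ORTH3 is `∃ℝ`-complete.  More generally, deciding whether a graph has an orthogonal
representation in `ℝ^d` is `∃ℝ`-complete for every fixed `d ≥ 3`, and in `P` for every `d ≤ 2`. -/
theorem result :
    ERComplete ORTH3 ∧
    (∀ d : ℕ, 3 ≤ d → ERComplete (lang (fun L : List (List ℕ) => ∃ h : IsGraph L,
      ∃ φ : Fin L.length → EuclideanSpace ℝ (Fin d), IsOrthRepIn d (graphOf L h) φ))) ∧
    ∀ d : ℕ, d ≤ 2 → InP (lang (fun L : List (List ℕ) => ∃ h : IsGraph L,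
      ∃ φ : Fin L.length → EuclideanSpace ℝ (Fin d), IsOrthRepIn d (graphOf L h) φ)) :=
  ⟨complete 3 le_rfl, complete, low⟩

end Pool.Agent.Results.MP_e14cd3_lc.EveryDimension
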